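import Pool.Agent.Results.MP_4aec10_nt.SemiabelianTranslates
import Pool.Agent.V11168.NX.AI

/-!
# The semiabelian Schanuel inequality in bounded degree for ALL translates by algebraic points near almost all dilated tuples of polynomials

Let `E : y² = 4 x³ - g₂ x - g₃` be an elliptic curve with rational `g₂`, `g₃` and lattice `Λ`, `G = (E × G_m)^n`, and let
`r₀ = (z, s)` be any point of `Lie G_ℂ`. As in the starting file `SemiabelianTranslates` we translate `r₀` by logarithms of
algebraic points `((α_i, β_i), α_i)_i` of `G`: `u_i = z_i + (a number with ℘ = α_i)`, `t_i = s_i + log α_i`. That file shows for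
all `n`-tuples `α` of algebraic integers of degree at most `m` and size at most `T`, but a proportion `C T^(-c)`, that every
polynomial relation of bounded degree over number fields of bounded degree, of any height, between arbitrary constants `w`
(for instance the periods), the numbers `u_i`, `ζ(u_i)`, `t_i` and the components of `exp_G(u, t)` is an identity in the `3 n`
numbers `u_i`, `ζ(u_i)`, `t_i`. The exceptional tuples there are not known.

Here we prove a statement without exceptional tuples. The tuple `α` of algebraic integers of degree `m` is given by its minimal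
polynomials, `n` monic integral polynomials of degree `m`; for a tuple `x` of `n` monic **real** polynomials `X^m + ∑ x_(i,j) X^j`
we consider the dilates `X^m + ∑ x_(i,j) V^(m-j) X^j` by `V = v_N`, and **all** tuples `α` whose minimal polynomials have
coefficients at distance at most `V^θ` from the coefficients of the dilates. The theorem: if the exponent of convergence of
`v_N ≥ 1` is zero (for example `v_N = 2 ^ N`), then for almost all `x` and all large `N` all these tuples are good. Here
`θ > 0` depends on `n`, `m`, `Λ`, on the number of the constants and on the degrees only, and `x` works for all degrees and all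
`w`, `z`, `s` with coordinates in a given countable set at the same time.

Proof: the counting theorem of `SemiabelianTranslates` and the Borel–Cantelli lemma for boxes of sides `V^(θ - (m - j))`
(`Pool.Agent.V11168.NX.ae_ai`).
-/

set_option autoImplicit false

open MeasureTheory Filter
open scoped PeriodPair

namespace Pool.Agent.Results.MP_4aec10_nt.AlmostAllDirections

open Pool.Agent.Results.MP_4aec10_nt.SemiabelianTranslates

/-- The `α_i` are algebraic integers of degree `m`, and the coefficients of their minimal polynomials are at distance at most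
`r` from the coefficients `x_(i,j) V^(m-j)` of the dilated polynomials `X^m + ∑ x_(i,j) V^(m-j) X^j`. -/
def Near {n : ℕ} (m : ℕ) (x : Fin n × Fin m → ℝ) (V r : ℝ) (α : Fin n → ℂ) : Prop :=
  ∀ i, IsIntegral ℤ (α i) ∧ (minpoly ℤ (α i)).natDegree = m ∧
    ∀ j : Fin m, |((minpoly ℤ (α i)).coeff j : ℝ) - x (i, j) * V ^ (m - (j : ℕ))| ≤ r

/-- The exponent of convergence of the sequence `v` is at most `τ`. -/
def ConvergenceExponentLe (v : ℕ → ℝ) (τ : ℝ) : Prop := ∀ s : ℝ, τ < s → Summable (fun n : ℕ => (v n) ^ (-s))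

lemma main (Λ : PeriodPair) (a b : ℚ) (ha : Λ.g₂ = a) (hb : Λ.g₃ = b) (n m : ℕ) (hm : 1 ≤ m) (q δ d : ℕ) :
    ∃ θ : ℝ, 0 < θ ∧ ∀ v : ℕ → ℝ, (∀ N, 1 ≤ v N) → ConvergenceExponentLe v 0 →
      ∀ (w : Fin q → ℂ) (z s : Fin n → ℂ), ∀ᵐ x : Fin n × Fin m → ℝ,
      ∃ N₀ : ℕ, ∀ N : ℕ, N₀ ≤ N → ∀ α : Fin n → ℂ, Near m x (v N) ((v N) ^ θ) α →
        ∀ u t : Fin n → ℂ, IsTranslate Λ z s α u t → FreeOverImage Λ δ d w u t := by
  obtain ⟨c, hc, C, hC, h⟩ := Pool.Agent.Y916.Sch.tupE Λ a b ha hb n q m δ d hm
  obtain ⟨h1, h2, h3⟩ := Pool.Agent.V11168.NX.exp_ok hc (n * m)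
  refine ⟨_, h1, fun v hv hv0 w z s => ?_⟩
  have hae := Pool.Agent.V11168.NX.ae_ai (k := n) (m := m) (fun α => Pool.Agent.Y916.Sch.BadE Λ δ d w z s α) hC
    (fun T hT => h w z s T hT) hv (fun s hs => hv0 s hs) h2 h3
  filter_upwards [hae] with x hx
  obtain ⟨N₀, hN₀⟩ := hx
  refine ⟨N₀, fun N hN α hα u t hu => ?_⟩
  by_contra hF
  exact hN₀ N hN α hα ⟨u, t, fun i => (hu i).1, fun i => (hu i).2.1, fun i => (hu i).2.2.1, fun i => (hu i).2.2.2, hF⟩

/-- **Theorem.** Let `Λ` be a lattice with rational invariants. For all `n` and `m ≥ 1` there are numbers `θ (q, δ, d) > 0` such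
that for every sequence `v_N ≥ 1` with exponent of convergence zero, every countable set `W` of complex numbers and almost all
`x ∈ ℝ^(n m)` (tuples of `n` monic real polynomials of degree `m`) the following holds. For all `q`, `δ`, `d` and all `w`, `z`,
`s` with coordinates in `W`, for all large `N` and all `n`-tuples `α` of algebraic integers of degree `m` whose minimal
polynomials have coefficients at distance at most `v_N ^ θ (q, δ, d)` from the coefficients `x_(i,j) v_N^(m-j)`, all translates
of `(z, s)` by logarithms of the points `((α_i, β_i), α_i)` are free over their image and `w`, in degree `δ` and over number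
fields of degree at most `d`. -/
theorem result (Λ : PeriodPair) (a b : ℚ) (ha : Λ.g₂ = a) (hb : Λ.g₃ = b) (n m : ℕ) (hm : 1 ≤ m) :
    ∃ θ : ℕ → ℕ → ℕ → ℝ, (∀ q δ d, 0 < θ q δ d) ∧ ∀ v : ℕ → ℝ, (∀ N, 1 ≤ v N) → ConvergenceExponentLe v 0 →
      ∀ W : Set ℂ, W.Countable → ∀ᵐ x : Fin n × Fin m → ℝ,
      ∀ (q δ d : ℕ) (w : Fin q → ℂ) (z s : Fin n → ℂ), (∀ l, w l ∈ W) → (∀ l, z l ∈ W) → (∀ l, s l ∈ W) →
      ∃ N₀ : ℕ, ∀ N : ℕ, N₀ ≤ N → ∀ α : Fin n → ℂ, Near m x (v N) ((v N) ^ θ q δ d) α →
        ∀ u t : Fin n → ℂ, IsTranslate Λ z s α u t → FreeOverImage Λ δ d w u t := by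
  choose θ hθ hθ2 using main Λ a b ha hb n m hm
  refine ⟨θ, hθ, fun v hv hv0 W hW => ?_⟩
  have h2 : ∀ (q δ d : ℕ), ∀ᵐ x : Fin n × Fin m → ℝ,
      ∀ c ∈ {w : Fin q → ℂ | ∀ l, w l ∈ W} ×ˢ ({z : Fin n → ℂ | ∀ l, z l ∈ W} ×ˢ {s : Fin n → ℂ | ∀ l, s l ∈ W}),
      ∃ N₀ : ℕ, ∀ N : ℕ, N₀ ≤ N → ∀ α : Fin n → ℂ, Near m x (v N) ((v N) ^ θ q δ d) α →
        ∀ u t : Fin n → ℂ, IsTranslate Λ c.2.1 c.2.2 α u t → FreeOverImage Λ δ d c.1 u t := by
    intro q δ d
    have hcount := (Set.countable_pi fun _ : Fin q => hW).prod ((Set.countable_pi fun _ : Fin n => hW).prod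
      (Set.countable_pi fun _ : Fin n => hW))
    rw [ae_ball_iff hcount]
    rintro ⟨w, z, s⟩ -
    exact hθ2 q δ d v hv hv0 w z s
  simp only [← ae_all_iff] at h2
  filter_upwards [h2] with x hx q δ d w z s hw hz hs
  exact hx q δ d (w, z, s) ⟨hw, hz, hs⟩

end Pool.Agent.Results.MP_4aec10_nt.AlmostAllDirections
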