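import Pool.Agent.Helper264.NT.NearPV2
import Pool.Agent.V11273.PV.G17

/-!
# The weak relative semi-abelian Schanuel conjecture in bounded degree and height at ALL algebraic points near almost every
point, for analytic families of points of products of elliptic curves and multiplicative groups

Let `G = 𝔾_m^s × E_{t(1)} × … × E_{t(n)}`, where `E_1, …, E_q` are pairwise not isogenous elliptic curves with lattices
`Λ_1, …, Λ_q` (over the algebraic numbers in the conjecture, arbitrary here), and let `r(z) = (l_1(z), …, l_s(z), p_1(z), …,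
p_n(z))` be an analytic map from a nonempty connected open set `U` of `ℂ^d`, `d ≥ 1`, to `Lie G`, such that the image of
`exp_G(r(z))` is not in a translate of a proper algebraic subgroup of `G` (structure `Map`). So `r` may be any analytic family
of points, for example a branch of the solutions of any system of equations `F(z, r, exp_G(r)) = 0`.

The components of `r(z)` and `exp_G(r(z))` are algebraic over the field generated by the `2 (n + s)` numbers `l_k`, `exp(l_k)`,
`p_i`, `℘(p_i)` (and `g₂, g₃`), and for a point `exp_G(r(z))` which is not in a translate of a proper subgroup by an algebraic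
point the conjecture says that `n + s = dim G` of them are algebraically independent over the field `F` of the periods of `G`.
One can choose `n + s` of the `2 (n + s)` functions with the following property. There is a set `E` in `ℂ^d` of Hausdorff
dimension at most `2 d - 2` such that near every point `z` of `U` outside of `E` there are no exceptional points: for all
`w > 0` (arbitrarily small), all number fields `K` and all `k`, for large `T`, at ALL points with coordinates in `K` of height
at most `T` at distance at most `T ^ (-w)` from `z` the chosen numbers satisfy no nonzero polynomial relation of partial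
degrees at most `k` with coefficients `∑ ξ i * c i`, `i < k`, `c i` integers of `K` of size at most `T ^ k`, where the `ξ i` are
any given complex numbers, in particular any elements of `F`. For real points `z` the same holds outside of a set in `ℝ^d` of
dimension at most `d - 1`.
-/

set_option autoImplicit false

open Filter NumberField
open scoped PeriodPair ENNReal

namespace Pool.Agent.Results.MP_4aec10_nt.NearEveryPoint

/-- `a` is a multiplier of the lattice: an endomorphism of the elliptic curve -/
def Multiplier (L : PeriodPair) (a : ℂ) : Prop := ∀ w ∈ L.lattice, a * w ∈ L.lattice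

/-- there is no nonzero homomorphism of elliptic curves -/
def NotIsogenous (L M : PeriodPair) : Prop := ∀ a : ℂ, (∀ w ∈ L.lattice, a * w ∈ M.lattice) → a = 0

/-- An analytic map: functions `p_i` with values in `ℂ` minus the lattice of number `t i`, independent modulo constants over
the multipliers, and functions `l_k` which are independent modulo constants over the integers. -/
structure Map {X : Type} [Fintype X] (U : Set (X → ℂ)) {q n s : ℕ} (Λ : Fin q → PeriodPair) (t : Fin n → Fin q)
    (p : Fin n → (X → ℂ) → ℂ) (l : Fin s → (X → ℂ) → ℂ) : Prop where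
  isOpen : IsOpen U
  isPreconnected : IsPreconnected U
  nonempty : U.Nonempty
  notIsogenous : ∀ c c', c ≠ c' → NotIsogenous (Λ c) (Λ c')
  analytic : ∀ i, AnalyticOnNhd ℂ (p i) U
  notMem : ∀ i, ∀ z ∈ U, p i z ∉ (Λ (t i)).lattice
  independent : ∀ (c : Fin q) (a : Fin n → ℂ), (∀ i, Multiplier (Λ c) (a i)) → (∀ i, t i ≠ c → a i = 0) → a ≠ 0 →
    ∀ b : ℂ, ∃ z ∈ U, ∑ i, a i * p i z ≠ b
  analytic_l : ∀ k, AnalyticOnNhd ℂ (l k) U
  linear : ∀ m : Fin s → ℤ, m ≠ 0 → ∀ b : ℂ, ∃ z ∈ U, ∑ k, (m k : ℂ) * l k z ≠ b

/-- The names of the functions `l_k`, `exp(l_k)`, `p_i`, `℘(p_i)`, in this order. -/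
abbrev Name (n s : ℕ) : Type := Fin s ⊕ (Fin s ⊕ (Fin n ⊕ Fin n))

/-- The functions with these names: components of `r` and `exp_G(r)`. -/
noncomputable def value {X : Type} {q n s : ℕ} (Λ : Fin q → PeriodPair) (t : Fin n → Fin q)
    (p : Fin n → (X → ℂ) → ℂ) (l : Fin s → (X → ℂ) → ℂ) : Name n s → (X → ℂ) → ℂ
  | Sum.inl k => l k
  | Sum.inr (Sum.inl k) => fun z => Complex.exp (l k z)
  | Sum.inr (Sum.inr (Sum.inl i)) => p i
  | Sum.inr (Sum.inr (Sum.inr i)) => fun z => ℘[Λ (t i)] (p i z)

/-- the inclusion of the names -/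
def emb {n s : ℕ} : Name n s → Pool.Agent.Y776.Cv.Nf n s :=
  Sum.elim Sum.inl (Sum.elim (fun k => Sum.inr (Sum.inl k)) (Sum.elim (fun i => Sum.inr (Sum.inr (Sum.inl i)))
    fun i => Sum.inr (Sum.inr (Sum.inr (Sum.inr i)))))

theorem emb_inj {n s : ℕ} : Function.Injective (emb (n := n) (s := s)) := by
  rintro (a | a | a | a) (b | b | b | b) h <;> simp_all [emb]

/-- quotients of two integers of `K`, all conjugates of which are at most `T` -/
def HeightLe (K : Type) [Field K] [NumberField K] (T : ℝ) (x : K) : Prop :=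
  ∃ a b : 𝓞 K, b ≠ 0 ∧ house (a : K) ≤ T ∧ house (b : K) ≤ T ∧ x = a / b

/-- for a number field `K` embedded into `ℂ` by `io`: the partial degrees of `P` are at most `k`, and its coefficients are
`∑ ξ i * c i`, `i < k`, where the `c i` are integers of `K`, all conjugates of which are at most `T ^ k` -/
def Small {σ : Type} (K : Type) [Field K] [NumberField K] (io : K →+* ℂ) (k : ℕ) (ξ : ℕ → ℂ) (T : ℝ)
    (P : MvPolynomial σ ℂ) : Prop :=
  (∀ y, P.degreeOf y ≤ k) ∧ ∀ m, ∃ c : Fin k → 𝓞 K, (∀ i (φ : K →+* ℂ), ‖φ (c i : K)‖ ≤ T ^ (k : ℝ)) ∧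
    P.coeff m = ∑ i : Fin k, ξ i * io (c i : K)

/-- At all points `s` with coordinates in the number field `K` (embedded into `ℂ` by `io`) of height at most `T` and with
`|s i - z i| ≤ T ^ (-w)` for all `i`, no nonzero small polynomial vanishes at the numbers `v a s`. -/
def NoRelationNear {X S : Type} (v : S → (X → ℂ) → ℂ) (ξ : ℕ → ℂ) (z : X → ℂ) (w : ℝ) (K : Type) [Field K]
    [NumberField K] (io : K →+* ℂ) (k : ℕ) (T : ℝ) : Prop :=
  ∀ s : X → K, (∀ i, HeightLe K T (s i)) → (∀ i, ‖io (s i) - z i‖ ≤ T ^ (-w)) →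
    ∀ P : MvPolynomial S ℂ, Small K io k ξ T P →
      MvPolynomial.eval (fun a => v a fun i => io (s i)) P = 0 → P = 0

/-- The numbers `v a s` are independent in bounded degree and height at ALL algebraic points `s` near almost every point of
`U`, `d` being the number of coordinates:
(1) there is a set `E` in `ℂ ^ d` of Hausdorff dimension at most `2 (d - 1)` such that for all `z ∈ U` outside of `E`, all
`w > 0`, all number fields `K ⊂ ℂ` and all `k`, `NoRelationNear v ξ z w K k T` holds for all large `T`;
(2) there is a set `E` in `ℝ ^ d` of dimension at most `d - 1` such that the same is true for all real `z ∈ U` outside of `E`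
and all number fields `K ⊂ ℝ`. -/
def IndependentNearAlmostAll {X S : Type} [Fintype X] (U : Set (X → ℂ)) (v : S → (X → ℂ) → ℂ) (ξ : ℕ → ℂ) : Prop :=
  (∃ E : Set (X → ℂ), dimH E ≤ ((2 * (Fintype.card X - 1) : ℕ) : ℝ≥0∞) ∧ ∀ z ∈ U, z ∉ E → ∀ w : ℝ, 0 < w →
    ∀ (K : IntermediateField ℚ ℂ) [NumberField K] (k : ℕ), ∀ᶠ T : ℝ in atTop,
      NoRelationNear v ξ z w K (algebraMap K ℂ) k T) ∧
  ∃ E : Set (X → ℝ), dimH E ≤ ((Fintype.card X - 1 : ℕ) : ℝ≥0∞) ∧
    ∀ z : X → ℝ, (fun i => (z i : ℂ)) ∈ U → z ∉ E → ∀ w : ℝ, 0 < w →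
    ∀ (K : IntermediateField ℚ ℝ) [NumberField K] (k : ℕ), ∀ᶠ T : ℝ in atTop,
      NoRelationNear v ξ (fun i => (z i : ℂ)) w K (Complex.ofRealHom.comp (algebraMap K ℝ)) k T

/-- Let `(p, l)` be an analytic map on a nonempty connected open set `U` of `ℂ^d`, `d ≥ 1`, with `n + s ≥ 1`. There is a set `A`
of `n + s = dim G` of the `2 (n + s)` functions `l_k`, `exp(l_k)`, `p_i`, `℘(p_i)` such that for all complex numbers `ξ i`
the numbers given by `A` are independent in bounded degree and height at ALL algebraic points near every point outside of a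
set of dimension at most `2 (d - 1)` (complex points), `d - 1` (real points): see `IndependentNearAlmostAll`. -/
theorem result {X : Type} [Fintype X] [DecidableEq X] [Nonempty X] {q n s : ℕ} (hns : 0 < s + n) (U : Set (X → ℂ))
    (Λ : Fin q → PeriodPair) (t : Fin n → Fin q) (p : Fin n → (X → ℂ) → ℂ) (l : Fin s → (X → ℂ) → ℂ)
    (hM : Map U Λ t p l) :
    ∃ A : Finset (Name n s), A.card = s + n ∧ ∀ ξ : ℕ → ℂ,
      IndependentNearAlmostAll U (fun (a : A) => value Λ t p l a.1) ξ := by
  classical
  have hv : ∀ a, value Λ t p l a = Pool.Agent.V11273.PV.yD Λ t p l (emb a) := by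
    rintro (k | k | i | i) <;> rfl
  have hF : Pool.Agent.V11273.PV.FxD U Λ t p l :=
    ⟨hM.isOpen, hM.isPreconnected, hM.nonempty, hM.notIsogenous, hM.analytic, hM.notMem, (by
      intro c a b ha hta hb
      by_contra hne
      obtain ⟨z, hz, hzn⟩ := hM.independent c a ha hta hne b
      exact hzn (hb z hz)), hM.analytic_l, (by
      intro m b hb
      by_contra hne
      obtain ⟨z, hz, hzn⟩ := hM.linear m hne b
      exact hzn (hb z hz))⟩
  obtain ⟨A, hA, hAi⟩ := Pool.Agent.V11273.PV.choose_fx hF hns
  -- the names in `A` which are not names of values of the zeta functions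
  set B₀ : Finset (Name n s) := Finset.univ.filter fun a => emb a ∈ A with hB₀
  have hcard : s + n ≤ B₀.card := by
    have h1 : A ⊆ B₀.image emb ∪ (Finset.univ : Finset (Fin n)).image fun i => Sum.inr (Sum.inr (Sum.inr (Sum.inl i))) := by
      intro a ha
      rw [Finset.mem_union, Finset.mem_image, Finset.mem_image]
      rcases a with k | k | i | i | i
      · exact Or.inl ⟨Sum.inl k, Finset.mem_filter.2 ⟨Finset.mem_univ _, ha⟩, rfl⟩
      · exact Or.inl ⟨Sum.inr (Sum.inl k), Finset.mem_filter.2 ⟨Finset.mem_univ _, ha⟩, rfl⟩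
      · exact Or.inl ⟨Sum.inr (Sum.inr (Sum.inl i)), Finset.mem_filter.2 ⟨Finset.mem_univ _, ha⟩, rfl⟩
      · exact Or.inr ⟨i, Finset.mem_univ _, rfl⟩
      · exact Or.inl ⟨Sum.inr (Sum.inr (Sum.inr i)), Finset.mem_filter.2 ⟨Finset.mem_univ _, ha⟩, rfl⟩
    have h2 := (Finset.card_le_card h1).trans (Finset.card_union_le _ _)
    have h3 : (B₀.image emb).card ≤ B₀.card := Finset.card_image_le
    have h4 : ((Finset.univ : Finset (Fin n)).image fun i =>
        (Sum.inr (Sum.inr (Sum.inr (Sum.inl i))) : Pool.Agent.Y776.Cv.Nf n s)).card ≤ n :=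
      Finset.card_image_le.trans (by simp)
    omega
  obtain ⟨B, hB, hBc⟩ := Finset.exists_subset_card_eq hcard
  have hmem : ∀ b : B, emb b.1 ∈ A := fun b => (Finset.mem_filter.1 (hB b.2)).2
  let g : B → A := fun b => ⟨emb b.1, hmem b⟩
  have hg : Function.Injective g := fun b c hbc => Subtype.ext (emb_inj (congrArg Subtype.val hbc))
  have hBi : ∀ P : MvPolynomial B (MvPolynomial X ℂ),
      (∀ x ∈ U, Pool.Agent.Y890.MV.evM (fun b : B => Pool.Agent.V11273.PV.yD Λ t p l (emb b.1)) x P = 0) → P = 0 := by
    intro P hP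
    have h1 := hAi (MvPolynomial.rename g P) (by
      intro x hx
      rw [← hP x hx]
      unfold Pool.Agent.Y890.MV.evM
      rw [MvPolynomial.eval₂_rename]
      rfl)
    exact (map_eq_zero_iff _ (MvPolynomial.rename_injective _ hg)).1 h1
  have h1 : ∀ b : B, AnalyticOnNhd ℂ (Pool.Agent.V11273.PV.yD Λ t p l (emb b.1)) U := fun b =>
    Pool.Agent.V11273.PV.yD_an hF (emb b.1)
  refine ⟨B, hBc, fun ξ => ?_⟩
  have h2 := Pool.Agent.Helper264.NT.near_two (S := B) (f := fun b : B => Pool.Agent.V11273.PV.yD Λ t p l (emb b.1))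
    hM.isPreconnected hM.isOpen hM.nonempty h1 hBi ξ
  have h3 : (fun (a : B) => value Λ t p l a.1) = fun b : B => Pool.Agent.V11273.PV.yD Λ t p l (emb b.1) := by
    funext b
    exact hv b.1
  rw [h3]
  exact h2

end Pool.Agent.Results.MP_4aec10_nt.NearEveryPoint
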