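import Pool.Agent.Results.MP_4aec10_nt.TranslatesInWindows
import Pool.Agent.Y916.Af.Trd
import Pool.Agent.V11286.NE.Vol
import Pool.Agent.V11168.NX.Core
import Pool.Agent.V11168.NX.Alg

/-!
# Translates of every point of the Lie algebra of `(E × G_m)^n` by logarithms of ALL tuples of algebraic points in windows
# along sequences

Let `E` be the elliptic curve `y² = 4 x³ - g₂ x - g₃` with rational `g₂`, `g₃`, let `Λ` be its lattice, `G = (E × G_m)^n`,
and let `r₀ = (z, s)` be any point of `Lie G_ℂ = ℂⁿ × ℂⁿ`. We consider the algebraic points `P = ((γ + g_i, β_i), γ + g_i)_i` of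
`G`, where `γ` is an algebraic number and the `g_i` are distinct integers, and all `r = (u, t)` in `r₀ + log_G(P)`. The starting
file `TranslatesInWindows` proves (for windows around algebraic numbers) that, except for at most `7 n + q + 4 + ρ` unknown
integers `g` in each window, every polynomial relation of bounded degree over number fields of bounded degree, of any height,
between the periods of `G`, arbitrary constants `w_1, …, w_q`, the components `u_i`, `t_i` of `r`, the numbers `ζ(u_i)` and the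
components `℘(u_i)`, `℘'(u_i)`, `exp(t_i)` of `exp_G(r)` is an identity in the numbers `u_i`, `ζ(u_i)`, `t_i`. So in bounded
degree the transcendence degree of the components of `r` over the field generated by the periods, the `w_j` and `exp_G(r)` is
`2 n`.

Here there are no exceptional integers. Let `v_m ≥ 1` be a sequence with exponent of convergence at most `τ`. (1) For all real
`α ≠ 0` outside a set of Hausdorff dimension at most `(1 - c + τ) / (1 - θ)` this holds for all large `m` for **all** `n`-tuples of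
distinct integers `g_i` with `|g_i - α v_m| ≤ v_m ^ θ`; here `c > 0` depends on `n`, `q`, the degrees and `Λ` only. (2) If the
exponent of convergence is zero (for example `v_m = 2 ^ m`) and `W` is a countable set of complex numbers, then almost every
real `α` works for all `n`, `q`, all degrees, all algebraic numbers `γ`, all points `(z, s)` and constants `w_j` with
coordinates in `W` at the same time.

Proof: the theorem `TranslatesInWindows` at the points `ξ = γ + N`, and covering arguments (`Pool.Agent.V11168.NX.nx`, which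
uses the metric theorem `Pool.Agent.Y854.GM.windowsV` of the starting library and generalises `no_exc` of helper286).
-/

set_option autoImplicit false

open MeasureTheory Filter
open scoped PeriodPair

namespace Pool.Agent.Results.MP_4aec10_nt.SequencesWithoutExceptions

/-- The Weierstrass zeta function `ζ(z) = ∑ (1/(z-l) + 1/l + z/l²)`, the sum over the lattice (the summand of `l = 0` is
`1/z`, since `1/0 = 0` in Lean). -/
noncomputable def zeta (Λ : PeriodPair) (z : ℂ) : ℂ := ∑' l : Λ.lattice, (1 / (z - l) + 1 / l + z / l ^ 2)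

/-- The periods `ω₁`, `ω₂`, the half quasi-periods `ζ(ω₁/2)`, `ζ(ω₂/2)`, and `2πi`. -/
noncomputable def periods (Λ : PeriodPair) : Fin 5 → ℂ :=
  ![Λ.ω₁, Λ.ω₂, zeta Λ (Λ.ω₁ / 2), zeta Λ (Λ.ω₂ / 2), 2 * Real.pi * Complex.I]

/-- The components `u_i`, `t_i` of a point of the Lie algebra of `(E × G_m)^n`, and the numbers `ζ(u_i)`. -/
noncomputable def components (Λ : PeriodPair) {n : ℕ} (u t : Fin n → ℂ) : Fin n × Fin 3 → ℂ :=
  fun a => ![u a.1, zeta Λ (u a.1), t a.1] a.2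

/-- The components of its image `exp_G(u, t)` in `(E × G_m)^n`. -/
noncomputable def image (Λ : PeriodPair) {n : ℕ} (u t : Fin n → ℂ) : Fin n × Fin 3 → ℂ :=
  fun a => ![℘[Λ] (u a.1), ℘'[Λ] (u a.1), Complex.exp (t a.1)] a.2

/-- Every polynomial relation of degree `≤ δ` over a number field of degree `≤ d` between the constants `w`, the periods, the
`components` and the `image` of `(u, t)` is an identity in the components. -/
def FreeOverImage (Λ : PeriodPair) (δ d : ℕ) {q n : ℕ} (w : Fin q → ℂ) (u t : Fin n → ℂ) : Prop :=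
  ∀ L : IntermediateField ℚ ℂ, FiniteDimensional ℚ L → Module.finrank ℚ L ≤ d →
  ∀ P : MvPolynomial ((Fin q ⊕ Fin 5) ⊕ ((Fin n × Fin 3) ⊕ (Fin n × Fin 3))) L, P.totalDegree ≤ δ →
  MvPolynomial.aeval (Sum.elim (Sum.elim w (periods Λ)) (Sum.elim (components Λ u t) (image Λ u t))) P = 0 →
  ∀ y : Fin n × Fin 3 → ℂ,
    MvPolynomial.aeval (Sum.elim (Sum.elim w (periods Λ)) (Sum.elim y (image Λ u t))) P = 0

/-- The point `(u, t)` is the sum of `(z, s)` and a logarithm `(p, l)` of the point `((a_i, ±b_i), a_i)` of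
`(E × G_m)^n`; no `u_i` is in the lattice. -/
def IsTranslate (Λ : PeriodPair) {n : ℕ} (z s a u t : Fin n → ℂ) : Prop :=
  ∀ i, u i ∉ Λ.lattice ∧ u i - z i ∉ Λ.lattice ∧ ℘[Λ] (u i - z i) = a i ∧ Complex.exp (t i - s i) = a i

/-- The exponent of convergence of the sequence `v` is at most `τ`. -/
def ConvergenceExponentLe (v : ℕ → ℝ) (τ : ℝ) : Prop := ∀ s : ℝ, τ < s → Summable (fun n : ℕ => (v n) ^ (-s))

/-- All translates of `(z, s)` by logarithms of the point given by `a` are free. -/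
def AllFree (Λ : PeriodPair) (δ d : ℕ) {q n : ℕ} (w : Fin q → ℂ) (z s a : Fin n → ℂ) : Prop :=
  ∀ u t : Fin n → ℂ, IsTranslate Λ z s a u t → FreeOverImage Λ δ d w u t

/-- the integers of absolute value at most `T`, as complex numbers -/
def ints (T : ℝ) : Set ℂ := {a | ∃ n : ℤ, a = n ∧ |(n : ℝ)| ≤ T}

lemma pow_ineq (E H N : ℕ) (h : (H + 2) ^ (2 * E + 2) ≤ N) (hN : 16 ≤ N) :
    (2 * H + 1 + 2) ^ E * 2 ≤ N ∧ 4 * (H + 2) ≤ N := by
  have h1 : (2 * H + 1 + 2) ^ E ≤ (H + 2) ^ (2 * E) := by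
    rw [pow_mul]
    exact Nat.pow_le_pow_left (by nlinarith) _
  have h2 : (H + 2) ^ (2 * E + 2) = (H + 2) ^ (2 * E) * (H + 2) ^ 2 := pow_add _ _ _
  have h3 : 1 ≤ (H + 2) ^ (2 * E) := Nat.one_le_pow _ _ (by omega)
  refine ⟨?_, ?_⟩
  · have h4 : 2 ≤ (H + 2) ^ 2 := by
      calc 2 ≤ 2 ^ 2 := by norm_num
        _ ≤ (H + 2) ^ 2 := Nat.pow_le_pow_left (by omega) 2
    calc (2 * H + 1 + 2) ^ E * 2 ≤ (H + 2) ^ (2 * E) * (H + 2) ^ 2 := Nat.mul_le_mul h1 h4
      _ ≤ N := by rw [← h2]; exact h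
  · have h4 : (H + 2) ^ 2 ≤ N := by
      calc (H + 2) ^ 2 = 1 * (H + 2) ^ 2 := by ring
        _ ≤ (H + 2) ^ (2 * E) * (H + 2) ^ 2 := Nat.mul_le_mul_right _ h3
        _ ≤ N := by rw [← h2]; exact h
    by_cases h5 : 4 ≤ H + 2
    · nlinarith
    · omega

lemma trdeg_le (Λ : PeriodPair) : Algebra.trdeg ℚ (IntermediateField.adjoin ℚ (Set.range
    (Pool.Agent.Results.MP_4aec10_nt.TranslatesInWindows.periods Λ))) ≤ ((5 : ℕ) : Cardinal) := by
  classical
  refine (Pool.Agent.Y916.Af.trdeg_le_of_closure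
    (Finset.univ.image (Pool.Agent.Results.MP_4aec10_nt.TranslatesInWindows.periods Λ)) ?_).trans ?_
  · rw [Finset.coe_image, Finset.coe_univ, Set.image_univ]
    exact Matroid.subset_closure _ _ (by simp)
  · have h1 : (Finset.univ.image (Pool.Agent.Results.MP_4aec10_nt.TranslatesInWindows.periods Λ)).card ≤ 5 := by
      refine Finset.card_image_le.trans ?_
      simp
    exact_mod_cast h1

lemma signed (Λ : PeriodPair) (a b : ℚ) (ha : Λ.g₂ = a) (hb : Λ.g₃ = b) (n q m δ d : ℕ) : ∃ c : ℝ, 0 < c ∧ c < 1 ∧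
    ∀ (w : Fin q → ℂ) (z s : Fin n → ℂ) (γ : ℂ) (ε : ℤ), ε = 1 ∨ ε = -1 →
    (∃ p : Polynomial ℤ, p ≠ 0 ∧ p.natDegree ≤ m ∧ Polynomial.aeval γ p = 0) →
    ∀ (v : ℕ → ℝ) (τ θ : ℝ), (∀ n, 1 ≤ v n) → 0 ≤ τ → ConvergenceExponentLe v τ → 0 ≤ θ → θ ≤ c →
      ∃ X : Set ℝ, dimH X ≤ ENNReal.ofReal ((1 - c + τ) / (1 - θ)) ∧ ∀ α : ℝ, 0 < α → α ∉ X →
        ∃ m₀ : ℕ, ∀ m : ℕ, m₀ ≤ m → ∀ g : Fin n → ℤ, Function.Injective g → (∀ i, |(g i : ℝ) - α * v m| ≤ (v m) ^ θ) →
          AllFree Λ δ d w z s fun i => γ + ε * (g i : ℂ) := by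
  classical
  obtain ⟨E, hE⟩ := Pool.Agent.Results.MP_4aec10_nt.TranslatesInWindows.result Λ a b ha hb n q m (4 * m + 2) δ d
  have hE0 : (0 : ℝ) ≤ E := Nat.cast_nonneg E
  refine ⟨1 / (2 * (2 * E + 2)), by positivity, by
    rw [div_lt_one (by positivity)]
    linarith, fun w z s γ ε hε hγ v τ θ hv hτ hvτ hθ0 hθ => ?_⟩
  obtain ⟨p, hp0, hpm, hpγ⟩ := hγ
  -- the height of `γ`
  obtain ⟨T₀, hT₀⟩ : ∃ T₀ : ℕ, ∀ j, |(p.coeff j : ℝ)| ≤ T₀ := by
    refine ⟨∑ j ∈ Finset.range (p.natDegree + 1), (p.coeff j).natAbs, fun j => ?_⟩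
    by_cases hj : j ∈ Finset.range (p.natDegree + 1)
    · have h1 : (p.coeff j).natAbs ≤ ∑ j ∈ Finset.range (p.natDegree + 1), (p.coeff j).natAbs :=
        Finset.single_le_sum (f := fun j => (p.coeff j).natAbs) (fun _ _ => Nat.zero_le _) hj
      have h2 : |(p.coeff j : ℝ)| = ((p.coeff j).natAbs : ℝ) := by
        rw [Nat.cast_natAbs, Int.cast_abs]
      rw [h2]
      exact_mod_cast h1
    · rw [Finset.mem_range, not_lt] at hj
      rw [Polynomial.coeff_eq_zero_of_natDegree_lt (by omega), Int.cast_zero, abs_zero]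
      exact Nat.cast_nonneg _
  have hγA : γ ∈ Pool.Agent.V11168.NX.Alg m (T₀ : ℝ) := ⟨p, hp0, hpm, hT₀, hpγ⟩
  set N₀ : ℕ := 16 + T₀ + ⌈4 * ‖γ‖⌉₊ with hN₀
  obtain ⟨X, hX, hX2⟩ := Pool.Agent.V11168.NX.nx (k := n) ints 1 (2 * E + 2) (7 * n + q + 4 + 5) N₀ le_rfl (by omega)
    (by
      rintro S T hST a ⟨n, h1, h2⟩
      exact ⟨n, h1, h2.trans hST⟩)
    (by
      rintro T hT _ ⟨n, rfl, h2⟩ a ha
      refine ⟨n + a, by push_cast; ring, ?_⟩
      push_cast
      rw [pow_one]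
      have := abs_add_le (n : ℝ) (a : ℝ)
      linarith)
    (by
      rintro T hT _ ⟨n, rfl, h2⟩
      rw [Complex.norm_intCast]
      linarith)
    (fun x => AllFree Λ δ d w z s fun i => γ + ε * x i) (by
      intro H N hN hHN
      obtain ⟨hHN1, hHN2⟩ := pow_ineq E H N hHN (by omega)
      set κ : ℤ := ε * N - (H + 1) with hκ
      have hN16 : (16 : ℝ) ≤ N := by
        have : 16 ≤ N := by omega
        exact_mod_cast this
      have hγN : 4 * ‖γ‖ ≤ N := by
        have h1 : ⌈4 * ‖γ‖⌉₊ ≤ N := by omega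
        exact (Nat.le_ceil _).trans (by exact_mod_cast h1)
      have hHR : 4 * ((H : ℝ) + 2) ≤ N := by exact_mod_cast hHN2
      have hεR : |(ε : ℝ)| = 1 := by rcases hε with h | h <;> rw [h] <;> norm_num
      have hκR : (κ : ℝ) = ε * N - (H + 1) := by
        rw [hκ]
        push_cast
        ring
      have hH0 : (0 : ℝ) ≤ H := Nat.cast_nonneg H
      have hκu : |(κ : ℝ)| ≤ 2 * N := by
        have h1 := abs_sub (ε * N : ℝ) ((H : ℝ) + 1)
        rw [← hκR, abs_mul, hεR, one_mul, Nat.abs_cast, abs_of_nonneg (by linarith : (0 : ℝ) ≤ (H : ℝ) + 1)] at h1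
        linarith
      have hκl : (3 / 4 : ℝ) * N ≤ |(κ : ℝ)| := by
        have h1 := abs_sub_abs_le_abs_sub (ε * N : ℝ) ((H : ℝ) + 1)
        rw [← hκR, abs_mul, hεR, one_mul, Nat.abs_cast, abs_of_nonneg (by linarith : (0 : ℝ) ≤ (H : ℝ) + 1)] at h1
        linarith
      have hξl : (N : ℝ) / 2 ≤ ‖γ + (κ : ℂ)‖ := by
        have h1 := norm_sub_norm_le (κ : ℂ) (-γ)
        rw [norm_neg, sub_neg_eq_add, Complex.norm_intCast, add_comm (κ : ℂ) γ] at h1
        linarith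
      obtain ⟨S, hS, hS2⟩ := hE (2 * H + 1) (γ + κ) (by
        refine le_trans ?_ hξl
        have h1 : (((2 * H + 1 + 2) ^ E * 2 : ℕ) : ℝ) ≤ N := by exact_mod_cast hHN1
        push_cast at h1 ⊢
        linarith) (by
        have hT0N : (T₀ : ℝ) ≤ 2 * N := by
          have h1 : T₀ ≤ N := by omega
          have h2 : (T₀ : ℝ) ≤ N := by exact_mod_cast h1
          linarith
        obtain ⟨p', h1, h2, h3, h4⟩ := Pool.Agent.V11168.NX.alg_cl m (2 * N) (by linarith) γ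
          (Pool.Agent.V11168.NX.alg_mono m _ _ hT0N hγA) κ hκu
        refine ⟨p', h1, h2, fun j => (h3 j).trans ?_, h4⟩
        have h5 : (2 * (2 * (N : ℝ))) ≤ ((N : ℝ) / 2) ^ 2 := by nlinarith
        calc (2 * (2 * (N : ℝ))) ^ (2 * m + 1) ≤ (((N : ℝ) / 2) ^ 2) ^ (2 * m + 1) :=
              pow_le_pow_left₀ (by positivity) h5 _
          _ = ((N : ℝ) / 2) ^ (4 * m + 2) := by rw [← pow_mul]; congr 1; ring
          _ ≤ ‖γ + (κ : ℂ)‖ ^ (4 * m + 2) := pow_le_pow_left₀ (by positivity) hξl _) w z s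
      have hScard : S.card ≤ 7 * n + q + 4 + 5 := by
        have h1 : (S.card : Cardinal) ≤ ((7 * n + q + 4 + 5 : ℕ) : Cardinal) := by
          refine hS.trans ?_
          rw [Nat.cast_add (7 * n + q + 4) 5]
          exact add_le_add le_rfl (trdeg_le Λ)
        exact_mod_cast h1
      refine ⟨S.image fun g : ℕ => ((ε * (g - (H + 1)) : ℤ) : ℂ), Finset.card_image_le.trans hScard,
        fun β hβ hβS hβA u t hut => ?_⟩
      choose b hb1 hb2 using hβA
      have hεε : ε * ε = 1 := by rcases hε with h | h <;> rw [h] <;> norm_num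
      have hbH : ∀ i, |b i| ≤ H := fun i => by exact_mod_cast hb2 i
      have hεb : ∀ i, |ε * b i| ≤ H := by
        intro i
        rw [abs_mul]
        have : |ε| = 1 := by rcases hε with h | h <;> rw [h] <;> norm_num
        rw [this, one_mul]
        exact hbH i
      have hpos : ∀ i, 1 ≤ H + 1 + ε * b i := fun i => by
        have := (abs_le.1 (hεb i)).1
        omega
      have hle : ∀ i, H + 1 + ε * b i ≤ 2 * H + 1 := fun i => by
        have := (abs_le.1 (hεb i)).2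
        omega
      set g : Fin n → ℕ := fun i => (H + 1 + ε * b i).toNat with hg
      have hgZ : ∀ i, (g i : ℤ) = H + 1 + ε * b i := fun i => Int.toNat_of_nonneg (by have := hpos i; omega)
      have hbg : ∀ i, b i = ε * ((g i : ℤ) - (H + 1)) := by
        intro i
        rw [hgZ i]
        have h1 : ε * ((H : ℤ) + 1 + ε * b i - (H + 1)) = (ε * ε) * b i := by ring
        rw [h1, hεε, one_mul]
      refine hS2 g (fun i i' hii => hβ ?_) (fun i => ⟨?_, ?_, fun hS3 => hβS i ?_⟩) u t ?_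
      · rw [hb1 i, hb1 i', hbg i, hbg i', hii]
      · have h1 := hpos i
        have h2 := hgZ i
        omega
      · have h1 := hle i
        have h2 := hgZ i
        omega
      · rw [Finset.mem_image]
        exact ⟨g i, hS3, by rw [hb1 i, ← hbg i]⟩
      · intro i
        obtain ⟨h1, h2, h3, h4⟩ := hut i
        have h5 : γ + (κ : ℂ) + ((g i : ℕ) : ℂ) = γ + ε * ((N : ℂ) + β i) := by
          have h6 : ((g i : ℕ) : ℂ) = ((H + 1 + ε * b i : ℤ) : ℂ) := by
            rw [← hgZ i]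
            push_cast
            ring
          rw [h6, hb1 i, hκ]
          push_cast
          ring
        exact ⟨h1, h2, h3.trans h5.symm, h4.trans h5.symm⟩)
    (b := 1 / (2 * (2 * E + 2))) (by positivity) (by
      push_cast
      rw [one_mul, one_div, inv_mul_cancel₀ (by positivity)])
    hv hτ hvτ hθ0 hθ
  refine ⟨X, hX, fun α hα hαX => ?_⟩
  obtain ⟨m₀, hm₀⟩ := hX2 α hα hαX
  refine ⟨m₀, fun m hm g hg hgα => ?_⟩
  have h1 := hm₀ m hm g (fun _ => 0) hgα (fun _ => ⟨0, by simp, by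
    simpa using Real.rpow_nonneg (zero_le_one.trans (hv m)) θ⟩) (by
      intro i i' hii
      apply hg
      simpa using hii)
  simpa using h1

/-- **Theorem.** Let `Λ` be a lattice with rational invariants.
(1) For all `n`, `q`, `e`, `δ`, `d` there is `c` with `0 < c < 1` such that for all `w_1, …, w_q`, all points `(z, s)`, all algebraic
numbers `γ` of degree at most `e`, all sequences `v_m ≥ 1` with exponent of convergence at most `τ` and all `0 ≤ θ ≤ c` the
following holds for all real `α ≠ 0` outside a set of Hausdorff dimension at most `(1 - c + τ) / (1 - θ)`: for all large `m` and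
all distinct integers `g_1, …, g_n` with `|g_i - α v_m| ≤ v_m ^ θ` all translates of `(z, s)` by logarithms of the points
`((γ + g_i, β_i), γ + g_i)` are free over their image, `w` and the periods.
(2) For every sequence `v_m ≥ 1` with exponent of convergence zero, every countable set `W` of complex numbers and almost every
real `α` the following holds. For all `n`, `q`, `δ`, `d`, all `w`, `z`, `s` with coordinates in `W` and all algebraic numbers `γ` there
is `θ > 0` such that for all large `m` and all distinct integers `g_1, …, g_n` with `|g_i - α v_m| ≤ v_m ^ θ` all translates of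
`(z, s)` by logarithms of the points `((γ + g_i, β_i), γ + g_i)` are free over their image, `w` and the periods.
(3) For example `v_m = 2 ^ m`. -/
theorem result (Λ : PeriodPair) (a b : ℚ) (ha : Λ.g₂ = a) (hb : Λ.g₃ = b) :
    (∀ n q e δ d : ℕ, ∃ c : ℝ, 0 < c ∧ c < 1 ∧ ∀ (w : Fin q → ℂ) (z s : Fin n → ℂ) (γ : ℂ),
      (∃ p : Polynomial ℤ, p ≠ 0 ∧ p.natDegree ≤ e ∧ Polynomial.aeval γ p = 0) →
      ∀ (v : ℕ → ℝ) (τ θ : ℝ), (∀ m, 1 ≤ v m) → 0 ≤ τ → ConvergenceExponentLe v τ → 0 ≤ θ → θ ≤ c →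
      ∃ X : Set ℝ, dimH X ≤ ENNReal.ofReal ((1 - c + τ) / (1 - θ)) ∧ ∀ α : ℝ, α ≠ 0 → α ∉ X →
        ∃ m₀ : ℕ, ∀ m : ℕ, m₀ ≤ m → ∀ g : Fin n → ℤ, Function.Injective g → (∀ i, |(g i : ℝ) - α * v m| ≤ (v m) ^ θ) →
          AllFree Λ δ d w z s fun i => γ + g i) ∧
    (∀ v : ℕ → ℝ, (∀ m, 1 ≤ v m) → ConvergenceExponentLe v 0 → ∀ W : Set ℂ, W.Countable → ∀ᵐ α : ℝ,
      ∀ (n q δ d : ℕ) (w : Fin q → ℂ) (z s : Fin n → ℂ) (γ : ℂ), (∀ l, w l ∈ W) → (∀ l, z l ∈ W) → (∀ l, s l ∈ W) →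
        IsAlgebraic ℚ γ → ∃ θ : ℝ, 0 < θ ∧
        ∃ m₀ : ℕ, ∀ m : ℕ, m₀ ≤ m → ∀ g : Fin n → ℤ, Function.Injective g → (∀ i, |(g i : ℝ) - α * v m| ≤ (v m) ^ θ) →
          AllFree Λ δ d w z s fun i => γ + g i) ∧
    ConvergenceExponentLe (fun m : ℕ => (2 : ℝ) ^ m) 0 := by
  have h1 : ∀ n q e δ d : ℕ, ∃ c : ℝ, 0 < c ∧ c < 1 ∧ ∀ (w : Fin q → ℂ) (z s : Fin n → ℂ) (γ : ℂ),
      (∃ p : Polynomial ℤ, p ≠ 0 ∧ p.natDegree ≤ e ∧ Polynomial.aeval γ p = 0) →
      ∀ (v : ℕ → ℝ) (τ θ : ℝ), (∀ m, 1 ≤ v m) → 0 ≤ τ → ConvergenceExponentLe v τ → 0 ≤ θ → θ ≤ c →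
      ∃ X : Set ℝ, dimH X ≤ ENNReal.ofReal ((1 - c + τ) / (1 - θ)) ∧ ∀ α : ℝ, α ≠ 0 → α ∉ X →
        ∃ m₀ : ℕ, ∀ m : ℕ, m₀ ≤ m → ∀ g : Fin n → ℤ, Function.Injective g → (∀ i, |(g i : ℝ) - α * v m| ≤ (v m) ^ θ) →
          AllFree Λ δ d w z s fun i => γ + g i := by
    intro n q e δ d
    obtain ⟨c, hc0, hc1, h⟩ := signed Λ a b ha hb n q e δ d
    refine ⟨c, hc0, hc1, fun w z s γ hγ v τ θ hv hτ hvτ hθ0 hθ => ?_⟩
    obtain ⟨X₁, hX₁, h₁⟩ := h w z s γ 1 (Or.inl rfl) hγ v τ θ hv hτ hvτ hθ0 hθ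
    obtain ⟨X₂, hX₂, h₂⟩ := h w z s γ (-1) (Or.inr rfl) hγ v τ θ hv hτ hvτ hθ0 hθ
    refine ⟨X₁ ∪ (fun x : ℝ => -x) '' X₂, ?_, fun α hα hαX => ?_⟩
    · rw [dimH_union, max_le_iff]
      refine ⟨hX₁, ?_⟩
      have h3 : dimH ((fun x : ℝ => -x) '' X₂) = dimH X₂ := Isometry.dimH_image (fun x y => by
        rw [edist_neg_neg]) X₂
      rw [h3]
      exact hX₂
    · rw [Set.mem_union, not_or] at hαX
      rcases lt_or_gt_of_ne hα with hneg | hpos
      · obtain ⟨m₀, hm₀⟩ := h₂ (-α) (by linarith) (fun h4 => hαX.2 ⟨-α, h4, by simp⟩)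
        refine ⟨m₀, fun m hm g hg hgα => ?_⟩
        have h5 := hm₀ m hm (fun i => -g i) (fun i i' hii => hg (by simpa using hii)) (fun i => by
          have h5 := hgα i
          push_cast
          rw [← abs_neg]
          have h6 : -(-(g i : ℝ) - -α * v m) = (g i : ℝ) - α * v m := by ring
          rwa [h6])
        have h7 : (fun i => γ + ((-1 : ℤ) : ℂ) * ((-g i : ℤ) : ℂ)) = fun i => γ + (g i : ℂ) := by
          funext i
          push_cast
          ring
        rwa [h7] at h5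
      · obtain ⟨m₀, hm₀⟩ := h₁ α hpos hαX.1
        refine ⟨m₀, fun m hm g hg hgα => ?_⟩
        have h5 := hm₀ m hm g hg hgα
        have h7 : (fun i => γ + ((1 : ℤ) : ℂ) * (g i : ℂ)) = fun i => γ + (g i : ℂ) := by
          funext i
          push_cast
          ring
        rwa [h7] at h5
  refine ⟨h1, fun v hv hv0 W hW => ?_, Pool.Agent.V11286.NE.expLe_two⟩
  have hcountA : {γ : ℂ | IsAlgebraic ℚ γ}.Countable := Algebraic.countable ℚ ℂ
  have h2 : ∀ (n q δ d : ℕ), ∀ᵐ α : ℝ, ∀ x ∈ {w : Fin q → ℂ | ∀ l, w l ∈ W} ×ˢ ({z : Fin n → ℂ | ∀ l, z l ∈ W} ×ˢ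
        ({s : Fin n → ℂ | ∀ l, s l ∈ W} ×ˢ {γ : ℂ | IsAlgebraic ℚ γ})), ∃ θ : ℝ, 0 < θ ∧
        ∃ m₀ : ℕ, ∀ m : ℕ, m₀ ≤ m → ∀ g : Fin n → ℤ, Function.Injective g → (∀ i, |(g i : ℝ) - α * v m| ≤ (v m) ^ θ) →
          AllFree Λ δ d x.1 x.2.1 x.2.2.1 fun i => x.2.2.2 + g i := by
    intro n q δ d
    have hcount := (Set.countable_pi fun _ : Fin q => hW).prod ((Set.countable_pi fun _ : Fin n => hW).prod
      ((Set.countable_pi fun _ : Fin n => hW).prod hcountA))
    rw [ae_ball_iff hcount]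
    rintro ⟨w, z, s, γ⟩ ⟨-, -, -, hγ⟩
    obtain ⟨p, hp0, hpγ⟩ := (IsFractionRing.isAlgebraic_iff ℤ ℚ ℂ).2 hγ
    obtain ⟨c, hc0, hc1, h⟩ := h1 n q p.natDegree δ d
    obtain ⟨X, hX, hX2⟩ := h w z s γ ⟨p, hp0, le_rfl, hpγ⟩ v 0 (c / 2) hv le_rfl hv0 (by linarith) (by linarith)
    have hX0 : volume X = 0 := Pool.Agent.V11286.NE.vol_zero (Pool.Agent.V11286.NE.ratio_lt hc0 hc1) hX
    have hae : ∀ᵐ α : ℝ, α ∉ X := measure_eq_zero_iff_ae_notMem.1 hX0
    have hae0 : ∀ᵐ α : ℝ, α ≠ 0 := by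
      rw [ae_iff]
      simp
    filter_upwards [hae, hae0] with α hα hα0
    exact ⟨c / 2, by positivity, hX2 α hα0 hα⟩
  simp only [← ae_all_iff] at h2
  have h3 : ∀ᵐ α : ℝ, ∀ (n q δ d : ℕ), ∀ x ∈ {w : Fin q → ℂ | ∀ l, w l ∈ W} ×ˢ ({z : Fin n → ℂ | ∀ l, z l ∈ W} ×ˢ
        ({s : Fin n → ℂ | ∀ l, s l ∈ W} ×ˢ {γ : ℂ | IsAlgebraic ℚ γ})), ∃ θ : ℝ, 0 < θ ∧
        ∃ m₀ : ℕ, ∀ m : ℕ, m₀ ≤ m → ∀ g : Fin n → ℤ, Function.Injective g → (∀ i, |(g i : ℝ) - α * v m| ≤ (v m) ^ θ) →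
          AllFree Λ δ d x.1 x.2.1 x.2.2.1 fun i => x.2.2.2 + g i := h2
  filter_upwards [h3] with α hα n q δ d w z s γ hw hz hs hγ
  exact hα n q δ d (w, z, s, γ) ⟨hw, hz, hs, hγ⟩

end Pool.Agent.Results.MP_4aec10_nt.SequencesWithoutExceptions
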